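import Pool.Agent.H858.AD.Main
import Pool.Graph.R_seed8.H914R2.KCorr
import Pool.Graph.R_seed8.H914R2.KLef

/-!
# Algebraic operators between a variety and its products
-/

set_option autoImplicit false
set_option linter.unusedSectionVars false
set_option linter.unusedVariables false

open CategoryTheory AlgebraicGeometry Finset

universe u v w

namespace Pool.Agent.H858.GB

open Pool.Agent.H914 hiding iter map_iter
open Pool.Agent.H447 Pool.Agent.W534 VarClass Obj WeilCohomology
open Pool.Agent.H281R3.HT Pool.Agent.W536.RR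
open Pool.Agent.Y133.Half (spanCycles_of_algSpan)
open Pool.Agent.R936 (span_le_algSpan)
open Pool.Agent.H858.AD (gr_pow algSpan_pow)

variable {k : Type u} [Field k] {𝒱 : VarClass k} {ops : CycleOps 𝒱}
  {W : WeilCohomology.{u, v} ops} {X Y Z V S : 𝒱.Obj}

/-- The operator given by a class on a variety over `X × Y`. -/
theorem corr_push (γ : Z ⟶ X.prod Y) (c : W.H Z) (x : W.H X) :
    W.corr (W.push γ c) x = W.push (γ ≫ snd X Y) (c * W.map (γ ≫ fst X Y) x) := by
  rw [corr_apply, W.map_comp, ← W.push_mul, W.push_comp]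

/-- The operator `z ↦ z × g`. -/
theorem iota_mem {g : W.H V} {p : ℕ} (hg : g ∈ spanCycles W V (p : ℕ)) :
    (LinearMap.mulRight W.K (W.map (snd Y V) g) ∘ₗ (W.map (fst Y V)).toLinearMap) ∈
      KOp W Y (Y.prod V) p := by
  rw [mem_KOp_iff]
  have hga := span_le_algSpan hg
  have hgg := Pool.Agent.H914.span_gr hg
  refine ⟨W.push (Obj.lift (fst Y V) (𝟙 (Y.prod V))) (W.map (snd Y V) g), ?_, ?_⟩
  · have h1 := spanCycles_of_algSpan (j := Y.dim + p) (algSpan_push (Obj.lift (fst Y V)
      (𝟙 (Y.prod V))) (algSpan_map (snd Y V) hga)) (by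
        have h2 := W.push_mem (Obj.lift (fst Y V) (𝟙 (Y.prod V))) (W.map_mem (snd Y V) hgg)
        have e : (((2 * p : ℕ) : ℤ) + 2 * (((Y.prod (Y.prod V)).dim : ℤ) - ((Y.prod V).dim : ℤ))) =
            ((2 * (Y.dim + p) : ℕ) : ℤ) := by
          rw [dim_prod, dim_prod]
          push_cast
          ring
        rwa [e, grZ_natCast] at h2)
    have e : ((Y.dim + p : ℕ) : ℤ) = (Y.dim : ℤ) + (p : ℤ) := by push_cast; ring
    rwa [e] at h1
  · apply LinearMap.ext
    intro x
    rw [corr_push, Obj.lift_fst, Obj.lift_snd, W.push_id, algSpan_comm (algSpan_map _ hga)]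
    rfl

/-- The operator `x ↦ pr_* (f x)`. -/
theorem rho_mem {f : W.H V} {p : ℕ} (hf : f ∈ spanCycles W V (p : ℕ)) :
    (W.push (fst Y V) ∘ₗ LinearMap.mulLeft W.K (W.map (snd Y V) f)) ∈
      KOp W (Y.prod V) Y ((p : ℤ) - V.dim) := by
  rw [mem_KOp_iff]
  have hfa := span_le_algSpan hf
  have hfg := Pool.Agent.H914.span_gr hf
  refine ⟨W.push (Obj.lift (𝟙 (Y.prod V)) (fst Y V)) (W.map (snd Y V) f), ?_, ?_⟩
  · have h1 := spanCycles_of_algSpan (j := Y.dim + p) (algSpan_push (Obj.lift (𝟙 (Y.prod V))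
      (fst Y V)) (algSpan_map (snd Y V) hfa)) (by
        have h2 := W.push_mem (Obj.lift (𝟙 (Y.prod V)) (fst Y V)) (W.map_mem (snd Y V) hfg)
        have e : (((2 * p : ℕ) : ℤ) + 2 * ((((Y.prod V).prod Y).dim : ℤ) - ((Y.prod V).dim : ℤ))) =
            ((2 * (Y.dim + p) : ℕ) : ℤ) := by
          rw [dim_prod, dim_prod]
          push_cast
          ring
        rwa [e, grZ_natCast] at h2)
    have e : ((Y.dim + p : ℕ) : ℤ) = ((Y.prod V).dim : ℤ) + ((p : ℤ) - V.dim) := by
      rw [dim_prod]; push_cast; ring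
    rwa [e] at h1
  · apply LinearMap.ext
    intro x
    rw [corr_push, Obj.lift_fst, Obj.lift_snd, W.map_id]
    rfl

/-- The multiplication by an algebraic class. -/
theorem mul_mem {f : W.H V} {p : ℕ} (hf : f ∈ spanCycles W V (p : ℕ)) :
    LinearMap.mulLeft W.K f ∈ KOp W V V p := by
  rw [mem_KOp_iff]
  have hfa := span_le_algSpan hf
  have hfg := Pool.Agent.H914.span_gr hf
  refine ⟨W.push (diag V) f, ?_, ?_⟩
  · have h1 := spanCycles_of_algSpan (j := V.dim + p) (algSpan_push (diag V) hfa) (by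
        have h2 := W.push_mem (diag V) hfg
        have e : (((2 * p : ℕ) : ℤ) + 2 * (((V.prod V).dim : ℤ) - (V.dim : ℤ))) =
            ((2 * (V.dim + p) : ℕ) : ℤ) := by
          rw [dim_prod]
          push_cast
          ring
        rwa [e, grZ_natCast] at h2)
    have e : ((V.dim + p : ℕ) : ℤ) = (V.dim : ℤ) + (p : ℤ) := by push_cast; ring
    rwa [e] at h1
  · apply LinearMap.ext
    intro x
    rw [W.corr_diag]
    rfl

/-- The slice of an external product. -/
theorem rho_iota {f g : W.H V} (hf : f ∈ algSpan W V) (z : W.H Y) :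
    W.push (fst Y V) (W.map (snd Y V) f * (W.map (fst Y V) z * W.map (snd Y V) g)) =
      W.tr V (f * g) • z := by
  apply W.tr_ext
  intro c
  rw [W.tr_push, smul_mul_assoc, map_smul, smul_eq_mul]
  have h1 : W.map (snd Y V) f * (W.map (fst Y V) z * W.map (snd Y V) g) * W.map (fst Y V) c =
      W.map (fst Y V) z * (W.map (snd Y V) (f * g) * W.map (fst Y V) c) := by
    rw [map_mul, algSpan_comm (algSpan_map _ hf)]
    rw [mul_assoc (W.map (fst Y V) z), ← algSpan_comm (algSpan_map _ hf)]
    simp only [mul_assoc]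
  rw [h1]
  -- the trace picks out the top degree of `f * g`
  set q := f * g with hq
  refine gr_induction (W.isInternal V) (p := fun q => W.tr (Y.prod V) (W.map (fst Y V) z *
    (W.map (snd Y V) q * W.map (fst Y V) c)) = W.tr V q * W.tr Y (z * c)) ?_ ?_ q
  · intro j q hq
    by_cases hj : j = 2 * V.dim
    · subst hj
      rw [W.even_comm (W.map_mem _ hq), ← mul_assoc, ← map_mul, W.tr_prod, mul_comm]
    · rw [W.tr_eq_zero hq hj, zero_mul]
      refine gr_induction (W.isInternal Y) (p := fun c => W.tr (Y.prod V) (W.map (fst Y V) z *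
        (W.map (snd Y V) q * W.map (fst Y V) c)) = 0) ?_ ?_ c
      · intro i c hc
        rw [W.comm (W.map_mem _ hq) (W.map_mem _ hc), mul_smul_comm, map_smul, ← mul_assoc,
          ← map_mul, W.tr_prod, W.tr_eq_zero hq hj, mul_zero, smul_zero]
      · intro a b ha hb
        rw [map_add, mul_add, mul_add, map_add, ha, hb, add_zero]
  · intro a b ha hb
    rw [map_add, add_mul, mul_add, map_add, ha, hb, map_add, add_mul]

end Pool.Agent.H858.GB
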